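import Pool.Agent.Y303.EJ.Stm
import Pool.Agent.Y914.SK.Lim

/-!
Job EJ-LIM (project EJ of helper303): limits of the solutions of the truncated systems along an
ultrafilter, with `SeqE` (adaptation of `Pool/Agent/Y914/SK/Lim.lean`).
-/

open Set Filter Topology MeasureTheory

set_option autoImplicit false

namespace Pool.Agent.Y987.EJ

open Pool.Agent.Y5.D (Ix qd vf3 Init)
open Pool.Agent.Y6.N
open Pool.Agent.Y6.K (Kz lv)
open Pool.Agent.Y665.NSK (dom dom_nonneg dom_summable Ctl wq wq_summable wq_mono wq_tendsto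
  qd_diff Bd sw kc Kz_eq G lev_fin ts_summable ts_one)
open Pool.Agent.Y303.SK (KD)
open Pool.Agent.Y303.EJ
open Pool.Agent.Y914.SK

section seq

variable {J : Type} {η : ℝ} {lm L C ℓ : ℕ → ℝ} {B : ℕ → ℕ → ℝ}

lemma dl_pos (h : SeqE η lm L C ℓ B) (n : ℕ) : 0 < dl η n := by
  unfold dl
  exact div_pos h.η0 (by positivity)

lemma dl_le (h : SeqE η lm L C ℓ B) (n : ℕ) : dl η n ≤ 1 := by
  unfold dl
  rw [div_le_one (by positivity)]
  have h1 : (1 : ℝ) ≤ 4 ^ n := one_le_pow₀ (by norm_num)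
  have h2 := h.η1
  linarith

lemma lm_geE (h : SeqE η lm L C ℓ B) (n : ℕ) : (10 : ℝ) ^ 30 ≤ lm n := by
  have h1 := h.lm_big n
  have h2 := dl_pos h n
  have h3 := dl_le h n
  have h4 : dl η n ^ 4 ≤ 1 := pow_le_one₀ h2.le h3
  have h5 : 0 < dl η n ^ 4 := by positivity
  have h6 : 0 < lm n := by
    by_contra hc
    push Not at hc
    have : dl η n ^ 4 * lm n ≤ 0 := mul_nonpos_of_nonneg_of_nonpos h5.le hc
    have h7 : (0 : ℝ) < 10 ^ 30 := by positivity
    linarith
  calc (10 : ℝ) ^ 30 ≤ dl η n ^ 4 * lm n := h1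
    _ ≤ 1 * lm n := mul_le_mul_of_nonneg_right h4 h6.le
    _ = lm n := one_mul _

lemma L_twoE (h : SeqE η lm L C ℓ B) (n : ℕ) : (2 : ℝ) ^ n ≤ L n := by
  induction n with
  | zero => simpa using h.L0
  | succ n ih =>
    have h1 := h.lm_succ n
    have h2 := lm_geE h (n + 1)
    have h3 : (1 : ℝ) ≤ 2 ^ n := one_le_pow₀ (by norm_num)
    have h4 : (2 : ℝ) ≤ lm (n + 1) := le_trans (by norm_num) h2
    rw [pow_succ, ← h1]
    nlinarith

lemma Bd_nonnegE (h : SeqE η lm L C ℓ B) {b : J → ℝ} (hb : ∀ j, 0 ≤ b j) (X : ℝ) (a : Ix J) :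
    0 ≤ Bd L b X a := by
  cases a with
  | inl n =>
    have h1 := L_twoE h n
    have h2 : (0 : ℝ) < 2 ^ n := by positivity
    exact div_nonneg (abs_nonneg _) (by linarith)
  | inr j => exact hb j

lemma Bd_summableE (h : SeqE η lm L C ℓ B) {b : J → ℝ} (hs : Summable b) (X : ℝ) :
    Summable (Bd L b X : Ix J → ℝ) := by
  refine Summable.sum _ ?_ hs
  have h1 : Summable (fun n : ℕ => |X| * (1 / 2 : ℝ) ^ n) := summable_geometric_two.mul_left _
  refine Summable.of_nonneg_of_le (fun n => ?_) (fun n => ?_) h1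
  · have h2 := L_twoE h n
    have h3 : (0 : ℝ) < 2 ^ n := by positivity
    exact div_nonneg (abs_nonneg _) (by linarith)
  · have h2 := L_twoE h n
    have h3 : (0 : ℝ) < 2 ^ n := by positivity
    show |X| / L n ≤ |X| * (1 / 2 : ℝ) ^ n
    rw [div_eq_mul_inv, one_div, inv_pow]
    exact mul_le_mul_of_nonneg_left (inv_anti₀ h3 h2) (abs_nonneg _)

end seq

theorem t_LIME : S_LIME := by
  intro J g o σ τ η lm L C ℓ ρ B R E D c Θ S b hK hSeq hR hΘ hb0 hbs Z hZ hZb U hU
  have hone : ∀ N, ∀ t ∈ Icc (0 : ℝ) Θ, ∀ a, |Z N a t| ≤ 1 := fun N t ht a =>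
    ts_one hR (hZ N) ht a
  have hex : ∀ i : Ix J, ∀ t : ℝ, ∃ x : ℝ, t ∈ Icc (0 : ℝ) Θ →
      Tendsto (fun N => Z N i t) U (𝓝 x) := by
    intro i t
    by_cases ht : t ∈ Icc (0 : ℝ) Θ
    · have hc : IsCompact (Icc (-1 : ℝ) 1) := isCompact_Icc
      have hm : (U.map (fun N => Z N i t) : Filter ℝ) ≤ 𝓟 (Icc (-1 : ℝ) 1) := by
        rw [le_principal_iff]
        exact Filter.mem_map.2 (Filter.univ_mem' fun N => abs_le.1 (hone N t ht i))
      obtain ⟨x, _, hx⟩ := hc.ultrafilter_le_nhds (U.map (fun N => Z N i t)) hm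
      exact ⟨x, fun _ => hx⟩
    · exact ⟨0, fun h => absurd h ht⟩
  choose z hz using hex
  have hlim : ∀ i, ∀ t ∈ Icc (0 : ℝ) Θ, Tendsto (fun N => Z N i t) U (𝓝 (z i t)) :=
    fun i t ht => hz i t ht
  have hge : ∀ i, ∀ᶠ N in (U : Filter ℕ), lv o i ≤ N := fun i => hU (eventually_ge_atTop _)
  have h0 : (0 : ℝ) ∈ Icc (0 : ℝ) Θ := ⟨le_rfl, hΘ.le⟩
  refine ⟨z, hlim, ⟨?_, fun n => ?_, fun w => ?_⟩, ?_, ?_, ?_⟩
  · exact tendsto_nhds_unique (hlim _ 0 h0)
      (tendsto_const_nhds.congr fun N => ((hZ N).init.1).symm)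
  · exact tendsto_nhds_unique (hlim _ 0 h0)
      (tendsto_const_nhds.congr fun N => ((hZ N).init.2.1 n).symm)
  · exact tendsto_nhds_unique (hlim _ 0 h0)
      (tendsto_const_nhds.congr fun N => ((hZ N).init.2.2 w).symm)
  · intro t ht
    have h1 : ∀ F : Finset (Ix J), ∑ a ∈ F, z a t ^ 2 ≤ 1 := by
      intro F
      have h2 : Tendsto (fun N => ∑ a ∈ F, Z N a t ^ 2) U (𝓝 (∑ a ∈ F, z a t ^ 2)) :=
        tendsto_finsetSum _ fun a _ => (hlim a t ht).pow 2
      refine le_of_tendsto h2 (Eventually.of_forall fun N => ?_)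
      exact ((ts_summable hR (hZ N) t).sum_le_tsum F fun a _ => sq_nonneg _).trans
        ((hZ N).energy t ht)
    exact ⟨summable_of_sum_le (fun a => sq_nonneg _) h1,
      Real.tsum_le_of_sum_le (fun a => sq_nonneg _) h1⟩
  · intro j t ht
    exact le_of_tendsto (hlim (Sum.inr j) t ht).abs
      (Eventually.of_forall fun N => hZb N j t ht)
  · rintro θ hθ0 hθ ⟨X, hX⟩ i s hs'
    have hsub : Icc (0 : ℝ) θ ⊆ Icc (0 : ℝ) Θ := Icc_subset_Icc_right hθ
    have hB := Bd_nonnegE (b := b) hSeq hb0 X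
    have hBs := Bd_summableE hSeq hbs X
    -- the bound holds for almost all `N`
    have hbd : ∀ᶠ N in (U : Filter ℕ), ∀ t ∈ Icc (0 : ℝ) θ, ∀ a, |Z N a t| ≤ Bd L b X a := by
      filter_upwards [hX] with N hN t ht a
      cases a with
      | inl n =>
        have h1 := L_twoE hSeq n
        have h2 : (0 : ℝ) < 2 ^ n := by positivity
        have h3 : 0 < L n := by linarith
        show |Z N (Sum.inl n) t| ≤ |X| / L n
        rw [le_div_iff₀ h3, mul_comm]
        exact (hN t ht n).trans (le_abs_self X)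
      | inr j => exact hZb N j t (hsub ht)
    have hq : ∀ i, ∀ t ∈ Icc (0 : ℝ) θ,
        Tendsto (fun N => G S o σ τ D c (fun a => Z N a t) i) U
          (𝓝 (G S o σ τ D c (fun a => z a t) i)) := by
      intro i t ht
      unfold G
      refine Tendsto.add (Tendsto.sub ?_ ?_) ?_
      · simp_rw [Kz_eq]
        exact (hlim _ t (hsub ht)).const_mul _
      · unfold lin
        refine tendsto_tsum_of_dominated_convergence
          (ld_summable (D := D) (i := i) (fun b => dsize hK i b) hB hBs) ?_ ?_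
        · intro p
          exact (hlim p t (hsub ht)).const_mul _
        · filter_upwards [hbd] with N hN p
          have hctl : Ctl (Bd L b X) (fun a => Z N a t) := ⟨hone N t (hsub ht), hN t ht⟩
          exact ctl_term hctl i p
      · unfold qd
        refine tendsto_tsum_of_dominated_convergence
          (dom_summable (c := c) (i := i) (fun a b => size hK i a b) hB hBs) ?_ ?_
        · intro p
          exact ((hlim p.1 t (hsub ht)).const_mul _).mul (hlim p.2 t (hsub ht))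
        · filter_upwards [hbd] with N hN p
          have hctl : Ctl (Bd L b X) (fun a => Z N a t) := ⟨hone N t (hsub ht), hN t ht⟩
          exact hctl.term hctl i p
    have htay : ∀ i, ∀ s ∈ Icc (0 : ℝ) θ, ∀ t ∈ Icc (0 : ℝ) θ,
        |z i t - z i s - (t - s) * G S o σ τ D c (fun a => z a s) i|
          ≤ wG R E S o σ τ D c (Bd L b X) i |t - s| * |t - s| := by
      intro i s hs' t ht
      have h1 : Tendsto (fun N => |Z N i t - Z N i s -
          (t - s) * G S o σ τ D c (fun a => Z N a s) i|)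
          U (𝓝 |z i t - z i s - (t - s) * G S o σ τ D c (fun a => z a s) i|) :=
        (((hlim i t (hsub ht)).sub (hlim i s (hsub hs'))).sub ((hq i s hs').const_mul _)).abs
      refine le_of_tendsto h1 ?_
      filter_upwards [hge i, hbd] with N hN hNb
      exact ts_taylor hK hR hB hBs (hZ N) hθ hNb i hN hs' ht
    show HasDerivWithinAt (z i) (G S o σ τ D c (fun a => z a s) i) (Icc 0 θ) s
    rw [hasDerivWithinAt_iff_isLittleO, Asymptotics.isLittleO_iff]
    intro ε hε
    have hw := wG_tendsto (S := S) (o := o) (σ := σ) (τ := τ) hK hB hBs i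
    have h1 : ∀ᶠ δ in 𝓝[≥] (0 : ℝ), wG R E S o σ τ D c (Bd L b X) i δ < ε :=
      hw.eventually_lt_const hε
    have h2 : Tendsto (fun t : ℝ => |t - s|) (𝓝[Icc 0 θ] s) (𝓝[≥] 0) := by
      refine tendsto_nhdsWithin_iff.2 ⟨?_, Eventually.of_forall fun t =>
        Set.mem_Ici.2 (abs_nonneg _)⟩
      have hc : Continuous (fun t : ℝ => |t - s|) := by fun_prop
      have := hc.tendsto s
      rw [sub_self, abs_zero] at this
      exact this.mono_left nhdsWithin_le_nhds
    filter_upwards [h2.eventually h1, self_mem_nhdsWithin] with t ht ht'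
    rw [Real.norm_eq_abs, Real.norm_eq_abs, smul_eq_mul]
    exact (htay i s hs' t ht').trans (mul_le_mul_of_nonneg_right ht.le (abs_nonneg _))

end Pool.Agent.Y987.EJ
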